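import Mathlib

set_option autoImplicit false
open Set Filter Topology

namespace Pool.Agent.Results.MP_21d915_nt.NoUpperBound

/-- The exponential-logarithmic tower with base `b`: the smallest subfield `F` of `ℂ` that is
algebraically closed in `ℂ` and satisfies `x ∈ F ↔ b^x ∈ F`, where `b^x = exp (x ln b)`. -/
noncomputable def EL (b : ℂ) : Subfield ℂ :=
  sInf {F : Subfield ℂ | (∀ x : ℂ, IsAlgebraic F x → x ∈ F) ∧
    ∀ x : ℂ, x ∈ F ↔ Complex.exp (x * Complex.log b) ∈ F}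

def val (A : Set (ℂ → ℂ)) (l : ℂ) : Set ℂ := {y | ∃ f ∈ A, ContDiffAt ℂ 1 f l ∧ f l = y}

lemma val_mono {A B : Set (ℂ → ℂ)} (h : A ⊆ B) (l : ℂ) : val A l ⊆ val B l :=
  fun _ ⟨f, hf, h1⟩ => ⟨f, h hf, h1⟩

lemma impl (G : ℂ × ℂ → ℂ) : ∃ A : Set (ℂ → ℂ), A.Countable ∧ ∀ l y, ContDiffAt ℂ 1 G (l, y) →
    G (l, y) = 0 → deriv (fun y => G (l, y)) y ≠ 0 → y ∈ val A l := by
  let Z : Set (ℂ × ℂ) := {u | ContDiffAt ℂ 1 G u ∧ G u = 0 ∧ deriv (fun y => G (u.1, y)) u.2 ≠ 0}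
  have h : ∀ u ∈ Z, ∃ ψ : ℂ → ℂ, {v | G v = 0 → ContDiffAt ℂ 1 ψ v.1 ∧ ψ v.1 = v.2} ∈ 𝓝[Z] u := by
    rintro u ⟨h1, h2, h3⟩
    have h4 : HasFDerivAt (fun y => G (u.1, y))
        (fderiv ℂ G u ∘L ContinuousLinearMap.inr ℂ ℂ ℂ) u.2 :=
      HasFDerivAt.comp u.2 (g := G) (f := fun y => (u.1, y))
        (h1.differentiableAt one_ne_zero).hasFDerivAt (hasFDerivAt_prodMk_right u.1 u.2)
    have h5 : (fderiv ℂ G u ∘L ContinuousLinearMap.inr ℂ ℂ ℂ).IsInvertible := by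
      refine ⟨ContinuousLinearEquiv.unitsEquivAut ℂ (Units.mk0 _ h3), ?_⟩
      ext
      simp [h4.hasDerivAt.deriv]
    refine ⟨h1.implicitFunction one_ne_zero h5, mem_nhdsWithin_of_mem_nhds ?_⟩
    have h6 := h1.eventually_apply_eq_iff_implicitFunction one_ne_zero h5
    have h7 := continuous_fst.continuousAt.eventually
      ((h1.contDiffAt_implicitFunction one_ne_zero h5).eventually (by simp))
    filter_upwards [h6, h7] with v h6 h7 hv
    exact ⟨h7, h6.mp (hv.trans h2.symm)⟩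
  choose! ψ hψ using h
  obtain ⟨t, -, htc, ht⟩ := TopologicalSpace.countable_cover_nhdsWithin hψ
  refine ⟨ψ '' t, htc.image _, fun l y h1 h2 h3 => ?_⟩
  obtain ⟨u, hu, h4⟩ := mem_iUnion₂.mp (ht (show (l, y) ∈ Z from ⟨h1, h2, h3⟩))
  exact ⟨ψ u, mem_image_of_mem _ hu, h4 h2⟩

noncomputable def H (n : ℕ) (t : Fin 5) (l : ℂ) (s : Fin (n + 2) → ℂ) (y : ℂ) : ℂ :=
  ![∑ i, s i * y ^ (i : ℕ), y - (s 0 - s 1), y - s 0 * s 1, y - Complex.exp (s 0 * l),
    Complex.exp (y * l) - s 0] t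

lemma step (A : Set (ℂ → ℂ)) (hA : A.Countable) : ∃ B : Set (ℂ → ℂ), B.Countable ∧ A ⊆ B ∧
    ∀ n t l s, (∀ i, s i ∈ val A l) → ∀ y, H n t l s y = 0 → deriv (H n t l s) y ≠ 0 →
      y ∈ val B l := by
  have := hA.to_subtype
  choose B hB h using fun p : (Σ n : ℕ, Fin 5 × (Fin (n + 2) → A)) =>
    impl (fun u => H p.1 p.2.1 u.1 (fun i => (p.2.2 i).1 u.1) u.2)
  refine ⟨A ∪ ⋃ p, B p, hA.union (countable_iUnion hB), subset_union_left,
    fun n t l s hs y h1 h2 => ?_⟩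
  choose f hf h3 h4 using hs
  obtain rfl : s = fun i => f i l := funext fun i => (h4 i).symm
  refine val_mono ((subset_iUnion B ⟨n, t, fun i => ⟨f i, hf i⟩⟩).trans subset_union_right) l
    (h ⟨n, t, fun i => ⟨f i, hf i⟩⟩ l y ?_ h1 h2)
  have h5 : ∀ i, ContDiffAt ℂ 1 (fun u : ℂ × ℂ => f i u.1) (l, y) := fun i =>
    ContDiffAt.comp (l, y) (g := f i) (f := Prod.fst) (h3 i) contDiffAt_fst
  have h0 := h5 0
  have h6 := h5 1
  fin_cases t
  · show ContDiffAt ℂ 1 (fun u : ℂ × ℂ => ∑ i : Fin (n + 2), f i u.1 * u.2 ^ (i : ℕ)) (l, y)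
    exact ContDiffAt.sum fun i _ => (h5 i).mul (contDiffAt_snd.pow _)
  · exact contDiffAt_snd.sub (h0.sub h6)
  · exact contDiffAt_snd.sub (h0.mul h6)
  · exact contDiffAt_snd.sub (h0.mul contDiffAt_fst).cexp
  · exact (contDiffAt_snd.mul contDiffAt_fst).cexp.sub h0

lemma closed : ∃ B : Set (ℂ → ℂ), B.Countable ∧ {0, 1, id} ⊆ B ∧
    ∀ n t l s, (∀ i, s i ∈ val B l) → ∀ y, H n t l s y = 0 → deriv (H n t l s) y ≠ 0 →
      y ∈ val B l := by
  choose! T h1 h2 h3 using step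
  let A : ℕ → Set (ℂ → ℂ) := fun k => T^[k] {0, 1, id}
  have e : ∀ k, A (k + 1) = T (A k) := fun k => Function.iterate_succ_apply' T k _
  have hc : ∀ k, (A k).Countable := fun k => by
    induction k with
    | zero => exact (toFinite ({0, 1, id} : Set (ℂ → ℂ))).countable
    | succ k ih => rw [e]; exact h1 _ ih
  have hm : Monotone A := monotone_nat_of_le_succ fun k => by rw [e]; exact h2 _ (hc k)
  refine ⟨⋃ k, A k, countable_iUnion hc, subset_iUnion A 0, fun n t l s hs y h4 h5 => ?_⟩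
  choose f hf h6 using hs
  choose k hk using fun i => mem_iUnion.mp (hf i)
  refine val_mono (subset_iUnion A (Finset.univ.sup k + 1)) l ?_
  rw [e]
  exact h3 _ (hc _) n t l s (fun i => ⟨f i, hm (Finset.le_sup (Finset.mem_univ i)) (hk i), h6 i⟩)
    y h4 h5

lemma EL_sub : ∃ B : Set (ℂ → ℂ), B.Countable ∧ {0, 1, id} ⊆ B ∧
    ∀ c : ℂ, c ≠ 0 → c ≠ 1 → (EL c : Set ℂ) ⊆ val B (Complex.log c) := by
  obtain ⟨B, hc, h0, h⟩ := closed
  refine ⟨B, hc, h0, fun c c0 c1 => ?_⟩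
  set l := Complex.log c with hl
  have l0 : l ≠ 0 := fun h => c1 (by rw [← Complex.exp_log c0, ← hl, h, Complex.exp_zero])
  have k0 : (0 : ℂ) ∈ val B l := ⟨0, h0 (by simp), contDiffAt_const, rfl⟩
  have k1 : (1 : ℂ) ∈ val B l := ⟨1, h0 (by simp), contDiffAt_const, rfl⟩
  have two : ∀ a ∈ val B l, ∀ b ∈ val B l, ∀ i : Fin (0 + 2), ![a, b] i ∈ val B l :=
    fun a ha b hb i => by fin_cases i; exacts [ha, hb]
  have hd : ∀ r y : ℂ, deriv (fun y => y - r) y ≠ 0 := fun r y => by simp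
  have ksub : ∀ a ∈ val B l, ∀ b ∈ val B l, a - b ∈ val B l := fun a ha b hb =>
    h 0 1 l _ (two a ha b hb) _ (sub_self _) (hd _ _)
  have kneg : ∀ a ∈ val B l, -a ∈ val B l := fun a ha => by simpa using ksub 0 k0 a ha
  have kpoly : ∀ p : Polynomial ℂ, (∀ i, p.coeff i ∈ val B l) → ∀ y, p.eval y = 0 →
      p.derivative.eval y ≠ 0 → y ∈ val B l := by
    intro p hp y h1 h2
    have e : H p.natDegree 0 l (fun i => p.coeff i) = fun y => p.eval y := by
      funext y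
      rw [Polynomial.eval_eq_sum_range' (n := p.natDegree + 2) (by omega), Finset.sum_range]
      rfl
    refine h p.natDegree 0 l (fun i => p.coeff i) (fun i => hp i) y ?_ ?_ <;> rw [e]
    · exact h1
    · rwa [Polynomial.deriv]
  let F : Subfield ℂ :=
    { carrier := val B l
      zero_mem' := k0
      one_mem' := k1
      neg_mem' := fun {a} ha => kneg a ha
      add_mem' := fun {a b} ha hb => by simpa using ksub a ha _ (kneg b hb)
      mul_mem' := fun {a b} ha hb => h 0 2 l _ (two a ha b hb) _ (sub_self _) (hd _ _)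
      inv_mem' := fun a ha => by
        rcases eq_or_ne a 0 with rfl | h1
        · simpa using k0
        refine h 0 0 l _ (two _ (kneg 1 k1) a ha) _ (by simp [H, h1]) ?_
        have e : H 0 0 l ![-1, a] = fun y => -1 + a * y := by
          funext y; simp [H]
        rw [e]
        simpa using h1 }
  refine sInf_le (a := F) ⟨fun x hx => ?_, fun x => ⟨fun hx => ?_, fun hx => ?_⟩⟩
  · have h1 := hx.isIntegral
    refine kpoly ((minpoly F x).map (algebraMap F ℂ)) (fun i => ?_) x ?_ ?_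
    · rw [Polynomial.coeff_map]; exact ((minpoly F x).coeff i).2
    · rw [Polynomial.eval_map_algebraMap, minpoly.aeval]
    · rw [Polynomial.derivative_map, Polynomial.eval_map_algebraMap]
      exact (minpoly.irreducible h1).separable.aeval_derivative_ne_zero (minpoly.aeval F x)
  · exact h 0 3 l _ (two x hx x hx) _ (sub_self _) (hd _ _)
  · refine h 0 4 l _ (two _ hx _ hx) _ (sub_self _) ?_
    have e : HasDerivAt (fun y => Complex.exp (y * l) - Complex.exp (x * l))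
        (Complex.exp (x * l) * (1 * l)) x := ((hasDerivAt_id x).mul_const l).cexp.sub_const _
    have e2 : H 0 4 l ![Complex.exp (x * l), Complex.exp (x * l)] =
      fun y => Complex.exp (y * l) - Complex.exp (x * l) := rfl
    rw [e2, e.deriv]
    simp [l0]

theorem result : ∃ a b : ℂ, a ≠ 0 ∧ a ≠ 1 ∧ b ≠ 0 ∧ b ≠ 1 ∧
    ¬ ∃ c : ℂ, c ≠ 0 ∧ c ≠ 1 ∧ EL a ≤ EL c ∧ EL b ≤ EL c := by
  obtain ⟨B, hc, h0, h⟩ := EL_sub
  let S : Set (ℂ × ℂ) := ⋃ p ∈ B ×ˢ B, (fun l => (p.1 l, p.2 l)) ''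
    {l | ContDiffAt ℂ 1 p.1 l ∧ ContDiffAt ℂ 1 p.2 l}
  have hS : dimH S ≤ 2 := by
    rw [dimH_bUnion (hc.prod hc)]
    refine iSup₂_le fun p _ => (dimH_image_le_of_locally_lipschitzOn fun l hl => ?_).trans ?_
    · obtain ⟨K, t, ht, h1⟩ := (hl.1.prodMk hl.2).exists_lipschitzOnWith
      exact ⟨K, t, mem_nhdsWithin_of_mem_nhds ht, h1⟩
    · refine (dimH_mono (subset_univ _)).trans ?_
      rw [Real.dimH_univ_eq_finrank, Complex.finrank_real_complex]
      simp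
  obtain ⟨⟨a, b⟩, hab⟩ : ∃ u, u ∉ S := by
    by_contra h1
    push Not at h1
    rw [eq_univ_of_forall h1, Real.dimH_univ_eq_finrank, Module.finrank_prod,
      Complex.finrank_real_complex] at hS
    norm_num at hS
  have key : ∀ l, a ∈ val B l → b ∈ val B l → False := by
    rintro l ⟨f, hf, f1, rfl⟩ ⟨g, hg, g1, rfl⟩
    exact hab (mem_biUnion (x := (f, g)) ⟨hf, hg⟩ ⟨l, ⟨f1, g1⟩, rfl⟩)
  have k0 : ∀ l, (0 : ℂ) ∈ val B l := fun l => ⟨0, h0 (by simp), contDiffAt_const, rfl⟩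
  have k1 : ∀ l, (1 : ℂ) ∈ val B l := fun l => ⟨1, h0 (by simp), contDiffAt_const, rfl⟩
  have k2 : ∀ l, l ∈ val B l := fun l => ⟨id, h0 (by simp), contDiffAt_id, rfl⟩
  have a0 : a ≠ 0 := fun e => key b (e ▸ k0 b) (k2 b)
  have b0 : b ≠ 0 := fun e => key a (k2 a) (e ▸ k0 a)
  have self : ∀ x : ℂ, x ≠ 0 → x ∈ EL x := fun x hx => Subfield.mem_sInf.mpr fun F hF => by
    have := (hF.2 1).mp F.one_mem
    rwa [one_mul, Complex.exp_log hx] at this
  refine ⟨a, b, a0, fun e => key b (e ▸ k1 b) (k2 b), b0, fun e => key a (k2 a) (e ▸ k1 a), ?_⟩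
  rintro ⟨c, c0, c1, h1, h2⟩
  exact key _ (h c c0 c1 (h1 (self a a0))) (h c c0 c1 (h2 (self b b0)))

end Pool.Agent.Results.MP_21d915_nt.NoUpperBound
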